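import Pool.Agent.P.MP_0ff3a5_nt.PartC

namespace Pool.Agent.Old.MP_0ff3a5_nt.AlmostAll
open MeasureTheory Pool.Agent.P.MP_0ff3a5_nt

/-- For Lebesgue-almost every pair `(t, α)` in the plane with `t > 0` and
`1 < α < (1 + √5) / 2`, every large integer is a sum of distinct values `⌊t α^n⌋`. -/
theorem result : ∀ᵐ p : ℝ × ℝ, 0 < p.1 → 1 < p.2 → p.2 < (1 + √5) / 2 →
    ∃ N : ℤ, ∀ m ≥ N, ∃ F : Finset ℤ,
      (∀ x ∈ F, ∃ n : ℕ, x = ⌊p.1 * p.2 ^ n⌋) ∧ ∑ x ∈ F, x = m := by
  have hm : MeasurableSet {q : ℝ × ℝ | 0 < q.2 → 1 < q.1 → q.1 < (1 + √5) / 2 → Good q.2 q.1} := by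
    have h1 : ∀ (x : ℤ) (n : ℕ), Measurable fun q : ℝ × ℝ => x = ⌊q.2 * q.1 ^ n⌋ := fun x n =>
      measurableSet_setOfPred.1 (measurableSet_eq_fun measurable_const
        (Int.measurable_floor.comp (by fun_prop)))
    refine measurableSet_setOfPred.2 (Measurable.imp (measurable_const.lt measurable_snd)
      (Measurable.imp (measurable_const.lt measurable_fst)
        (Measurable.imp (measurable_fst.lt measurable_const) ?_)))
    exact Measurable.exists fun N => Measurable.forall fun m => Measurable.imp measurable_const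
      (Measurable.exists fun F => Measurable.and (Measurable.forall fun x =>
        Measurable.imp measurable_const (Measurable.exists fun n => h1 x n)) measurable_const)
  have h2 : ∀ᵐ q ∂((volume : Measure ℝ).prod (volume : Measure ℝ)),
      0 < q.2 → 1 < q.1 → q.1 < (1 + √5) / 2 → Good q.2 q.1 := by
    refine (Measure.ae_prod_iff_ae_ae hm).2 ?_
    filter_upwards [ae_ae_good] with α h
    by_cases a1 : 1 < α
    · by_cases a2 : α < (1 + √5) / 2
      · have s5 : √5 * √5 = 5 := Real.mul_self_sqrt (by norm_num)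
        have s0 : 0 ≤ √5 := Real.sqrt_nonneg _
        filter_upwards [h a1 (by nlinarith)] with t ht t0 _ _ using ht t0
      · exact Filter.Eventually.of_forall fun t _ _ h => absurd h a2
    · exact Filter.Eventually.of_forall fun t _ h => absurd h a1
  exact (Measure.measurePreserving_swap (μ := (volume : Measure ℝ))
    (ν := (volume : Measure ℝ))).quasiMeasurePreserving.ae h2

end Pool.Agent.Old.MP_0ff3a5_nt.AlmostAll
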